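import Pool.Agent.W_bbc525_b1.D0

/-!
# A Chebyshev inequality

PROOF. Put `x e = log (m e) / k e`. Tangent line of `exp`: `m e = exp (k e * x e)
≥ Q^(k e) + Q^(k e) * k e * (x e - log Q)` (`Real.add_one_le_exp`, `Q^(k e) = exp (k e log Q)`),
so `l^(k e) (m e - 1)/k e ≥ l^(k e) (Q^(k e) - 1)/k e + (l Q)^(k e) (x e - log Q)`.
It remains to see `Σ (l Q)^(k e) (x e - log Q) ≥ 0`: by `l Q ≥ 1` the numbers `(l Q)^(k e)` are
nondecreasing in `k e`, the numbers `x e` too (`hmono`), so by Chebyshev's sum inequality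
(`MonovaryOn.sum_mul_sum_le_card_mul_sum`) `(Σ (l Q)^(k e)) (Σ (x e - log Q)) ≤
|E| Σ (l Q)^(k e) (x e - log Q)`, and `Σ (x e - log Q) ≥ 0` by `hsum`.
-/

set_option autoImplicit false

namespace Pool.Agent.W_bbc525_b1

open Finset

/-- the tangent of `exp`, for one edge -/
theorem Ch_term {k : ℕ} (hk : 1 ≤ k) {m Q l : ℝ} (hm : 0 < m) (hQ : 1 ≤ Q) (hl : 0 < l) :
    l ^ k * ((Q ^ k - 1) / k) + (l * Q) ^ k * (Real.log m / k - Real.log Q) ≤
      l ^ k * ((m - 1) / k) := by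
  have hk' : (0 : ℝ) < k := by exact_mod_cast hk
  have hQ0 : 0 < Q := by linarith
  have h1 : Q ^ k * (1 + (Real.log m - k * Real.log Q)) ≤ m := by
    have h2 := Real.add_one_le_exp (Real.log m - k * Real.log Q)
    have h3 : Q ^ k * Real.exp (Real.log m - k * Real.log Q) = m := by
      have h4 : Q ^ k = Real.exp (k * Real.log Q) := by
        rw [← Real.log_pow, Real.exp_log (by positivity)]
      rw [h4, ← Real.exp_add]
      have h5 : (k : ℝ) * Real.log Q + (Real.log m - k * Real.log Q) = Real.log m := by ring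
      rw [h5, Real.exp_log hm]
    calc Q ^ k * (1 + (Real.log m - k * Real.log Q))
        ≤ Q ^ k * Real.exp (Real.log m - k * Real.log Q) :=
          mul_le_mul_of_nonneg_left (by linarith) (by positivity)
      _ = m := h3
  have h6 : l ^ k * ((Q ^ k - 1) / k) + (l * Q) ^ k * (Real.log m / k - Real.log Q) =
      l ^ k * ((Q ^ k * (1 + (Real.log m - k * Real.log Q)) - 1) / k) := by
    rw [mul_pow]
    field_simp
    ring
  rw [h6]
  apply mul_le_mul_of_nonneg_left _ (by positivity)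
  exact div_le_div_of_nonneg_right (by linarith) hk'.le

theorem cheb {ι : Type*} {E : Finset ι} (hE : 0 < E.card) {k : ι → ℕ}
    (hk : ∀ e ∈ E, 1 ≤ k e) {m : ι → ℝ} (hm : ∀ e ∈ E, 0 < m e)
    (hmono : ∀ e ∈ E, ∀ f ∈ E, k e ≤ k f → Real.log (m e) / k e ≤ Real.log (m f) / k f)
    {Q l : ℝ} (hQ : 1 ≤ Q) (hl : 0 < l) (hlQ : 1 ≤ l * Q)
    (hsum : E.card * Real.log Q ≤ ∑ e ∈ E, Real.log (m e) / k e) :
    ∑ e ∈ E, l ^ k e * ((Q ^ k e - 1) / k e) ≤ ∑ e ∈ E, l ^ k e * ((m e - 1) / k e) := by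
  have hE' : (0 : ℝ) < E.card := by exact_mod_cast hE
  have h1 : ∑ e ∈ E, (l ^ k e * ((Q ^ k e - 1) / k e) +
      (l * Q) ^ k e * (Real.log (m e) / k e - Real.log Q)) ≤
        ∑ e ∈ E, l ^ k e * ((m e - 1) / k e) :=
    Finset.sum_le_sum fun e he => Ch_term (hk e he) (hm e he) hQ hl
  rw [Finset.sum_add_distrib] at h1
  have hmv : MonovaryOn (fun e => (l * Q) ^ k e) (fun e => Real.log (m e) / k e - Real.log Q)
      (E : Set ι) := by
    intro e he f hf hef
    have hef' : Real.log (m e) / k e - Real.log Q < Real.log (m f) / k f - Real.log Q := hef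
    have hlt : k e ≤ k f := by
      by_contra hcon
      have := hmono f hf e he (by omega)
      linarith
    exact pow_le_pow_right₀ hlQ hlt
  have h2 := hmv.sum_mul_sum_le_card_mul_sum
  have h3 : 0 ≤ ∑ e ∈ E, (l * Q) ^ k e :=
    Finset.sum_nonneg fun e _ => pow_nonneg (by linarith) _
  have h4 : 0 ≤ ∑ e ∈ E, (Real.log (m e) / k e - Real.log Q) := by
    rw [Finset.sum_sub_distrib, Finset.sum_const, nsmul_eq_mul]
    linarith
  have h5 : 0 ≤ (E.card : ℝ) *
      ∑ e ∈ E, (l * Q) ^ k e * (Real.log (m e) / k e - Real.log Q) :=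
    le_trans (mul_nonneg h3 h4) h2
  have h6 : 0 ≤ ∑ e ∈ E, (l * Q) ^ k e * (Real.log (m e) / k e - Real.log Q) :=
    nonneg_of_mul_nonneg_right h5 hE'
  linarith

end Pool.Agent.W_bbc525_b1
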