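import Pool.Agent.W_bbc525_b1.D0

/-!
# Lyapunov: the norms are nondecreasing

PROOF. Jensen for the convex function `t ^ (b/a)` (`b/a ≥ 1`) and the probability measure on
`unitInterval`: `(∫ d^a)^(b/a) ≤ ∫ (d^a)^(b/a) = ∫ d^b` (see `mom_jensen` in
W_bbc525_h89/Full.lean for the same proof with two variables: `(convexOn_rpow hp).map_integral_le`).
Take logarithms: `(b/a) log (∫ d^a) ≤ log (∫ d^b)`, and divide by `b`.
-/

set_option autoImplicit false

namespace Pool.Agent.W_bbc525_b1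

open MeasureTheory Finset Pool.Agent.W_MP_bbc525_pr Pool.Agent.W_bbc525_ends

theorem ly_pow {d : unitInterval → ℝ} (hd : BF d) (n : ℕ) : BF (fun x => d x ^ n) := by
  obtain ⟨C, hC⟩ := hd.bdd
  refine ⟨hd.meas.pow_const n, C ^ n, fun x => ?_⟩
  rw [abs_pow]
  exact pow_le_pow_left₀ (abs_nonneg _) (hC x) n

theorem ly_jensen {d : unitInterval → ℝ} (hd : BF d) (h0 : ∀ x, 0 ≤ d x) {a b : ℕ} (ha : 1 ≤ a)
    (hab : a ≤ b) : (∫ x, d x ^ a) ^ ((b : ℝ) / a) ≤ ∫ x, d x ^ b := by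
  have ha' : (0 : ℝ) < a := by exact_mod_cast ha
  have hp : (1 : ℝ) ≤ (b : ℝ) / a := by
    rw [le_div_iff₀ ha', one_mul]
    exact_mod_cast hab
  have key : ∀ x, (d x ^ a) ^ ((b : ℝ) / a) = d x ^ b := fun x => by
    rw [← Real.rpow_natCast (d x) a, ← Real.rpow_mul (h0 x),
      mul_div_cancel₀ _ ha'.ne', Real.rpow_natCast]
  have h := (convexOn_rpow hp).map_integral_le (μ := (volume : Measure unitInterval))
    (f := fun x => d x ^ a)
    (Real.continuous_rpow_const (by linarith)).continuousOn isClosed_Ici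
    (Filter.Eventually.of_forall fun z => pow_nonneg (h0 z) a) (ly_pow hd a).integrable (by
      have : ((fun x : ℝ => x ^ ((b : ℝ) / a)) ∘ fun x => d x ^ a) = fun x => d x ^ b := by
        funext x
        exact key x
      rw [this]
      exact (ly_pow hd b).integrable)
  refine h.trans (le_of_eq ?_)
  exact integral_congr_ae (Filter.Eventually.of_forall fun z => key z)

theorem lyap {d : unitInterval → ℝ} (hd : BF d) (h0 : ∀ x, 0 ≤ d x) {a b : ℕ} (ha : 1 ≤ a)
    (hab : a ≤ b) (hpos : 0 < ∫ x, d x ^ a) :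
    0 < ∫ x, d x ^ b ∧
      Real.log (∫ x, d x ^ a) / a ≤ Real.log (∫ x, d x ^ b) / b := by
  have ha' : (0 : ℝ) < a := by exact_mod_cast ha
  have hb' : (0 : ℝ) < b := by exact_mod_cast (lt_of_lt_of_le ha hab)
  have hj := ly_jensen hd h0 ha hab
  have h1 : 0 < (∫ x, d x ^ a) ^ ((b : ℝ) / a) := Real.rpow_pos_of_pos hpos _
  have h2 : 0 < ∫ x, d x ^ b := lt_of_lt_of_le h1 hj
  refine ⟨h2, ?_⟩
  have h3 := Real.log_le_log h1 hj
  rw [Real.log_rpow hpos] at h3
  rw [div_le_div_iff₀ ha' hb']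
  have h4 : (b : ℝ) / a * Real.log (∫ x, d x ^ a) * a ≤ Real.log (∫ x, d x ^ b) * a :=
    mul_le_mul_of_nonneg_right h3 ha'.le
  have h5 : (b : ℝ) / a * Real.log (∫ x, d x ^ a) * a = Real.log (∫ x, d x ^ a) * b := by
    field_simp
  linarith

end Pool.Agent.W_bbc525_b1
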