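import Pool.Agent.W_bbc525_b1.D0

/-!
# The path inequality

PROOF. Put `g e v = (r/v)^(k e) * (((q/r)^(k e) - 1)/k e) > 0` (`q > u ≥ r > 0`), `n = |E|`,
`A v = (1/n) Σ ((v/r)^(k e) - 1) / ((q/r)^(k e) - 1)`; `A q = 1`, `A u ≥ 0`, and
`A' v = (1/n) Σ k e v^(k e - 1) / (r^(k e) ((q/r)^(k e) - 1)) = (1/n) Σ 1/(v g e v)`.
`Θ v = v (logit v - logit p) > 0` for `v > u ≥ p` (`logit_strictMono`), so `R > 0` (use `h` at
`v = q`). By Cauchy-Schwarz `n^2 ≤ (Σ g)(Σ 1/g)` (`Finset.sum_div_comm`-free: e.g.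
`Finset.sum_mul_sq_le_sq_mul_sq` or `inner_mul_le_norm_mul_norm`, or Jensen), i.e.
`1/((1/n) Σ g) ≤ (1/n) Σ 1/g`; with `h`: `Θ v < R / ((1/n) Σ g) ≤ R (1/n) Σ 1/g = R v A' v`.
So `B v = relEnt p v - R A v` has `v B' v = Θ v - R v A' v < 0` on `(u, q)` (`hasDerivAt_relEnt`:
derivative `logit v - logit p`), it is continuous on `[u, q]` (`continuousOn_relEnt`), hence
`B q < B u` (`strictAntiOn_of_deriv_neg`), i.e.
`relEnt p q - R < relEnt p u - R A u ≤ relEnt p u`.
-/

set_option autoImplicit false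

namespace Pool.Agent.W_bbc525_b1

open Finset Pool.Agent.W_MP_bbc525_pr Pool.Agent.W_bbc525_h89 Pool.Agent.W_bbc525_td

theorem Pt_pow_sub_pos {r q : ℝ} (hr : 0 < r) (hrq : r < q) {k : ℕ} (hk : 1 ≤ k) :
    0 < (q / r) ^ k - 1 := by
  have h1 : 1 < q / r := (one_lt_div hr).2 hrq
  have h2 := one_lt_pow₀ h1 (by omega : k ≠ 0)
  linarith

theorem Pt_cs {ι : Type*} {E : Finset ι} (hE : 0 < E.card) {g : ι → ℝ} (hg : ∀ e ∈ E, 0 < g e)
    {T R : ℝ} (hT : 0 < T) (h : T * (1 / (E.card : ℝ) * ∑ e ∈ E, g e) < R) :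
    T < R * (1 / (E.card : ℝ) * ∑ e ∈ E, 1 / g e) := by
  have hn : (0 : ℝ) < (E.card : ℝ) := by exact_mod_cast hE
  have hne : E.Nonempty := Finset.card_pos.1 hE
  have hG : 0 < ∑ e ∈ E, g e := Finset.sum_pos hg hne
  have hH : 0 < ∑ e ∈ E, 1 / g e := Finset.sum_pos (fun e he => one_div_pos.2 (hg e he)) hne
  have h1 := Finset.sq_sum_div_le_sum_sq_div E (fun _ => (1 : ℝ)) hg
  simp only [Finset.sum_const, nsmul_eq_mul, mul_one, one_pow] at h1
  rw [div_le_iff₀ hG] at h1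
  have h2 : T ≤ T * (1 / (E.card : ℝ) * ∑ e ∈ E, g e) *
      (1 / (E.card : ℝ) * ∑ e ∈ E, 1 / g e) := by
    have h3 : T * (1 / (E.card : ℝ) * ∑ e ∈ E, g e) * (1 / (E.card : ℝ) * ∑ e ∈ E, 1 / g e) =
        T * (((∑ e ∈ E, 1 / g e) * ∑ e ∈ E, g e) / (E.card : ℝ) ^ 2) := by
      field_simp
    rw [h3]
    have h4 : 1 ≤ ((∑ e ∈ E, 1 / g e) * ∑ e ∈ E, g e) / (E.card : ℝ) ^ 2 := by
      rw [le_div_iff₀ (by positivity)]
      linarith
    calc T = T * 1 := (mul_one T).symm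
      _ ≤ _ := mul_le_mul_of_nonneg_left h4 hT.le
  refine h2.trans_lt ?_
  exact mul_lt_mul_of_pos_right h (mul_pos (by positivity) hH)

theorem path_lt {ι : Type*} {E : Finset ι} (hE : 0 < E.card) {k : ι → ℕ}
    (hk : ∀ e ∈ E, 1 ≤ k e) {p q r u R : ℝ} (hp : 0 < p) (hr : 0 < r) (hru : r ≤ u)
    (hpu : p ≤ u) (huq : u < q) (hq1 : q < 1)
    (h : ∀ v, u < v → v ≤ q → v * (logit v - logit p) * (1 / (E.card : ℝ) *
      ∑ e ∈ E, (r / v) ^ k e * (((q / r) ^ k e - 1) / k e)) < R) :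
    relEnt p q - relEnt p u < R := by
  have hn : (0 : ℝ) < (E.card : ℝ) := by exact_mod_cast hE
  have hu : 0 < u := lt_of_lt_of_le hr hru
  have hrq : r < q := lt_of_le_of_lt hru huq
  have hp1 : p < 1 := by linarith
  have ha : ∀ e ∈ E, 0 < (q / r) ^ k e - 1 := fun e he => Pt_pow_sub_pos hr hrq (hk e he)
  have hkp : ∀ e ∈ E, (0 : ℝ) < (k e : ℝ) := fun e he => by exact_mod_cast (hk e he)
  have hg : ∀ v, 0 < v → ∀ e ∈ E, 0 < (r / v) ^ k e * (((q / r) ^ k e - 1) / k e) := by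
    intro v hv e he
    exact mul_pos (pow_pos (div_pos hr hv) _) (div_pos (ha e he) (hkp e he))
  have hRpos : 0 < R := by
    have h1 := h q huq le_rfl
    have h2 : 0 < logit q - logit p := logit_strictMono hp (by linarith) hq1
    refine lt_of_le_of_lt ?_ h1
    refine mul_nonneg (mul_nonneg (by linarith) h2.le) (mul_nonneg (by positivity) ?_)
    exact Finset.sum_nonneg (fun e he => (hg q (by linarith) e he).le)
  let A : ℝ → ℝ := fun v => 1 / (E.card : ℝ) *
    ∑ e ∈ E, ((v / r) ^ k e - 1) / ((q / r) ^ k e - 1)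
  have hAq : A q = 1 := by
    have h1 : ∑ e ∈ E, ((q / r) ^ k e - 1) / ((q / r) ^ k e - 1) = (E.card : ℝ) := by
      rw [Finset.sum_congr rfl (fun e he => div_self (ha e he).ne'), Finset.sum_const,
        nsmul_eq_mul, mul_one]
    simp only [A]
    rw [h1]
    field_simp
  have hAu : 0 ≤ A u := by
    refine mul_nonneg (by positivity) (Finset.sum_nonneg (fun e he => ?_))
    refine div_nonneg ?_ (ha e he).le
    have h1 : 1 ≤ u / r := (one_le_div hr).2 hru
    have h2 := one_le_pow₀ h1 (n := k e)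
    linarith
  have hA : ∀ v, 0 < v → HasDerivAt A (1 / (E.card : ℝ) *
      ∑ e ∈ E, ((k e : ℝ) * (v / r) ^ (k e - 1) * (1 / r)) / ((q / r) ^ k e - 1)) v := by
    intro v hv
    refine HasDerivAt.const_mul _ ?_
    refine HasDerivAt.fun_sum (fun e he => ?_)
    refine HasDerivAt.div_const ?_ _
    refine HasDerivAt.sub_const _ ?_
    have h1 : HasDerivAt (fun v : ℝ => v / r) (1 / r) v := (hasDerivAt_id v).div_const r
    exact h1.pow (k e)
  have hvA : ∀ v, 0 < v → v * (1 / (E.card : ℝ) *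
      ∑ e ∈ E, ((k e : ℝ) * (v / r) ^ (k e - 1) * (1 / r)) / ((q / r) ^ k e - 1)) =
      1 / (E.card : ℝ) * ∑ e ∈ E, 1 / ((r / v) ^ k e * (((q / r) ^ k e - 1) / k e)) := by
    intro v hv
    rw [mul_left_comm, Finset.mul_sum]
    congr 1
    refine Finset.sum_congr rfl (fun e he => ?_)
    have h1 := (ha e he).ne'
    have h2 := (hkp e he).ne'
    have h3 : (v / r) ^ k e = (v / r) ^ (k e - 1) * (v / r) := by
      rw [← pow_succ]
      congr 1
      have := hk e he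
      omega
    have h4 : (r / v) ^ k e * (v / r) ^ k e = 1 := by
      rw [← mul_pow]
      have : r / v * (v / r) = 1 := by field_simp
      rw [this, one_pow]
    have h5 : (r / v) ^ k e ≠ 0 := pow_ne_zero _ (div_pos hr hv).ne'
    have h6 : 1 / ((r / v) ^ k e * (((q / r) ^ k e - 1) / k e)) =
        (v / r) ^ k e * ((k e : ℝ) / ((q / r) ^ k e - 1)) := by
      rw [one_div, mul_inv, inv_div]
      congr 1
      exact (eq_inv_of_mul_eq_one_right h4).symm
    rw [h6, h3]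
    field_simp
  have hB : StrictAntiOn (fun v => relEnt p v - R * A v) (Set.Icc u q) := by
    refine strictAntiOn_of_deriv_neg (convex_Icc u q) ?_ ?_
    · refine ContinuousOn.sub ((continuousOn_relEnt hp hp1).mono
        (Set.Icc_subset_Icc hu.le hq1.le)) ?_
      intro v hv
      exact ((hA v (lt_of_lt_of_le hu hv.1)).const_mul R).continuousAt.continuousWithinAt
    · intro v hv
      rw [interior_Icc] at hv
      have hv0 : 0 < v := hu.trans hv.1
      have hd : HasDerivAt (fun x => relEnt p x - R * A x) (logit v - logit p - R *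
          (1 / (E.card : ℝ) * ∑ e ∈ E, ((k e : ℝ) * (v / r) ^ (k e - 1) * (1 / r)) /
            ((q / r) ^ k e - 1))) v :=
        (hasDerivAt_relEnt hp hp1 hv0 (hv.2.trans hq1)).sub ((hA v hv0).const_mul R)
      rw [hd.deriv]
      have hT : 0 < v * (logit v - logit p) :=
        mul_pos hv0 (logit_strictMono hp (lt_of_le_of_lt hpu hv.1) (hv.2.trans hq1))
      have h1 := Pt_cs hE (hg v hv0) hT (h v hv.1 hv.2.le)
      rw [← hvA v hv0] at h1
      have h2 : v * ((logit v - logit p) - R * (1 / (E.card : ℝ) *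
          ∑ e ∈ E, ((k e : ℝ) * (v / r) ^ (k e - 1) * (1 / r)) / ((q / r) ^ k e - 1))) < 0 := by
        linarith
      exact neg_of_mul_neg_right h2 hv0.le
  have h1 := hB (Set.left_mem_Icc.2 huq.le) (Set.right_mem_Icc.2 huq.le) huq
  simp only at h1
  rw [hAq] at h1
  have h2 : 0 ≤ R * A u := mul_nonneg hRpos.le hAu
  linarith

end Pool.Agent.W_bbc525_b1
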