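import Pool.Agent.W_bbc525_b1.Lc

/-!
# The tangent of the vertex function

Let `F z = 2 dd v z - T psm E k z` on `[0, 1/v]` and
`F' z = 2 dd' v z - T * (1/|E|) Σ (z^(k e - 1) - 1)` its derivative on `(0, 1/v)`
(`hasDerivAt_dd`, `hasDerivAt_ps`, W_bbc525_td/Base.lean; `continuousOn_dd`, `continuous_ps`).

PROOF. (i) `F'` is strictly increasing on `(0, 1]` (on `(0,1)` suffices, plus continuity at `1`:
`F'` is differentiable at `1 < 1/v`): its derivative is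
`F'' z = 2 v / (z (1 - v z)) - T * (1/|E|) Σ (k e - 1) z^(k e - 2)` (`hasDerivAt_dd'`), and
`z (1 - v z) F'' z = 2 v - T * (1/|E|) Σ (k e - 1) z^(k e - 1) (1 - v z)`. For `k ≥ 2` and
`v k ≤ k - 1` the function `B z = z^(k-1) (1 - v z)` has derivative
`z^(k-2) ((k - 1) - k v z) > 0` on `(0, 1)`, so `B z < B 1 = 1 - v` for `0 < z < 1` (without
derivatives: `z^(k-1)(1 - v z) < 1 - v` is Bernoulli: `1 - v z = (1 - v) + v (1 - z)` and
`z^(1-k) ≥ 1 + (k-1)(1-z)/z ≥ 1 + (k - 1)(1 - z) ≥ 1 + (v/(1-v)) (1 - z)` as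
`v/(1-v) ≤ k - 1`). As some `k e ≥ 2`, for `T > 0`
`z (1 - v z) F'' z > 2 v - T (1 - v)(1/|E|) Σ (k e - 1) ≥ 0` by `local_cond`; for `T = 0` it is
`2 v > 0`.
(ii) `F 1 = 0`, `F' 1 = 0` (`dd_one`, `dd'_one`, `ps_one`). For `z ∈ [0, 1]`, `z ≠ l`: the
function `F z - F l - F' l (z - l)` is strictly decreasing on `[0, l]`, strictly increasing on
`[l, 1]`, and vanishes at `l`; so it is positive at `z` (or use `StrictMonoOn.strictConvexOn_of_deriv`).
(iii) For `z ∈ (1, 1/v]`: `F' l < F' 1 = 0` and by (ii) at `z = 1`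
`F l + F' l (1 - l) < F 1 = 0`, hence `F l + F' l (z - l) < 0 ≤ F z` by `h`.
-/

set_option autoImplicit false

namespace Pool.Agent.W_bbc525_b1

open Finset Pool.Agent.W_MP_bbc525_pr Pool.Agent.W_bbc525_td

theorem Tg_B {n : ℕ} (hn : 1 ≤ n) {v z : ℝ} (hv1 : v < 1)
    (hvn : v * ((n : ℝ) + 1) ≤ n) (hz : 0 < z) (hz1 : z < 1) : z ^ n * (1 - v * z) < 1 - v := by
  have hn' : (1 : ℝ) ≤ n := by exact_mod_cast hn
  have hw : 1 < z⁻¹ := (one_lt_inv₀ hz).2 hz1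
  have hb : 1 + (n : ℝ) * (z⁻¹ - 1) ≤ (1 + (z⁻¹ - 1)) ^ n :=
    one_add_mul_le_pow (by linarith) n
  have e1 : 1 + (z⁻¹ - 1) = z⁻¹ := by ring
  rw [e1] at hb
  have hv2 : 0 < 1 - v := by linarith
  have h1 : v ≤ n * (1 - v) := by linarith
  have h2 : 1 - z < z⁻¹ - 1 := by
    have e2 : z * z⁻¹ = 1 := mul_inv_cancel₀ hz.ne'
    nlinarith [mul_pos hz (sub_pos.2 hw)]
  have h3 : v * (1 - z) ≤ n * (1 - v) * (1 - z) :=
    mul_le_mul_of_nonneg_right h1 (by linarith)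
  have h4 : (n : ℝ) * (1 - v) * (1 - z) < n * (1 - v) * (z⁻¹ - 1) :=
    mul_lt_mul_of_pos_left h2 (by positivity)
  have h5 : 1 - v * z < (1 - v) * (1 + (n : ℝ) * (z⁻¹ - 1)) := by nlinarith
  have h6 : (1 - v) * (1 + (n : ℝ) * (z⁻¹ - 1)) ≤ (1 - v) * z⁻¹ ^ n :=
    mul_le_mul_of_nonneg_left hb hv2.le
  have hzn : 0 < z ^ n := pow_pos hz n
  have h7 : z ^ n * (1 - v * z) < z ^ n * ((1 - v) * z⁻¹ ^ n) :=
    mul_lt_mul_of_pos_left (lt_of_lt_of_le h5 h6) hzn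
  have h8 : z ^ n * ((1 - v) * z⁻¹ ^ n) = 1 - v := by
    rw [inv_pow]
    field_simp
  linarith

/-- the second derivative is positive -/
theorem Tg_pos {ι : Type*} {E : Finset ι} (hE : 0 < E.card) {k : ι → ℕ}
    (hk : ∀ e ∈ E, 1 ≤ k e) (hk2 : ∃ e ∈ E, 2 ≤ k e) {v T : ℝ} (hv : 0 < v) (hv1 : v < 1)
    (hT : 0 ≤ T) (hkv : ∀ e ∈ E, 2 ≤ k e → v * k e ≤ k e - 1)
    (hloc : T * ((1 - v) * (1 / (E.card : ℝ) * ∑ e ∈ E, ((k e : ℝ) - 1))) ≤ 2 * v)
    {z : ℝ} (hz : 0 < z) (hz1 : z < 1) :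
    0 < 2 * dd'' v z - T * (1 / (E.card : ℝ) *
      ∑ e ∈ E, ((k e - 1 : ℕ) : ℝ) * z ^ (k e - 1 - 1)) := by
  have hE' : (0 : ℝ) < E.card := by exact_mod_cast hE
  have hvz : 0 < 1 - v * z := by nlinarith
  have hp : 0 < z * (1 - v * z) := mul_pos hz hvz
  have hterm : ∀ e ∈ E, ((k e - 1 : ℕ) : ℝ) * z ^ (k e - 1 - 1) * (z * (1 - v * z)) ≤
      ((k e : ℝ) - 1) * (1 - v) := by
    intro e he
    rcases Nat.lt_or_ge (k e) 2 with h1 | h1
    · have h2 : k e = 1 := by have := hk e he; omega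
      rw [h2]
      simp
    · have h2 : ((k e - 1 : ℕ) : ℝ) = (k e : ℝ) - 1 := by
        rw [Nat.cast_sub (hk e he)]
        simp
      have h3 : z ^ (k e - 1 - 1) * z = z ^ (k e - 1) := by
        rw [← pow_succ]
        congr 1
        omega
      have h4 := Tg_B (n := k e - 1) (by omega) hv1 (by
        rw [h2]
        have := hkv e he h1
        linarith) hz hz1
      have h5 : ((k e - 1 : ℕ) : ℝ) * z ^ (k e - 1 - 1) * (z * (1 - v * z)) =
          ((k e : ℝ) - 1) * (z ^ (k e - 1) * (1 - v * z)) := by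
        rw [← h3, h2]
        ring
      rw [h5]
      have h6 : (2 : ℝ) ≤ k e := by exact_mod_cast h1
      exact mul_le_mul_of_nonneg_left h4.le (by linarith)
  obtain ⟨e0, he0, hk0⟩ := hk2
  have hstrict : ((k e0 - 1 : ℕ) : ℝ) * z ^ (k e0 - 1 - 1) * (z * (1 - v * z)) <
      ((k e0 : ℝ) - 1) * (1 - v) := by
    have h2 : ((k e0 - 1 : ℕ) : ℝ) = (k e0 : ℝ) - 1 := by
      rw [Nat.cast_sub (hk e0 he0)]
      simp
    have h3 : z ^ (k e0 - 1 - 1) * z = z ^ (k e0 - 1) := by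
      rw [← pow_succ]
      congr 1
      omega
    have h4 := Tg_B (n := k e0 - 1) (by omega) hv1 (by
      rw [h2]
      have := hkv e0 he0 hk0
      linarith) hz hz1
    have h5 : ((k e0 - 1 : ℕ) : ℝ) * z ^ (k e0 - 1 - 1) * (z * (1 - v * z)) =
        ((k e0 : ℝ) - 1) * (z ^ (k e0 - 1) * (1 - v * z)) := by
      rw [← h3, h2]
      ring
    rw [h5]
    have h6 : (2 : ℝ) ≤ k e0 := by exact_mod_cast hk0
    exact mul_lt_mul_of_pos_left h4 (by linarith)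
  have hsum : (∑ e ∈ E, ((k e - 1 : ℕ) : ℝ) * z ^ (k e - 1 - 1)) * (z * (1 - v * z)) <
      (∑ e ∈ E, ((k e : ℝ) - 1)) * (1 - v) := by
    rw [Finset.sum_mul, Finset.sum_mul]
    exact Finset.sum_lt_sum hterm ⟨e0, he0, hstrict⟩
  have hdd : dd'' v z * (z * (1 - v * z)) = v := by
    unfold dd''
    field_simp
  have key : T * (1 / (E.card : ℝ) * ∑ e ∈ E, ((k e - 1 : ℕ) : ℝ) * z ^ (k e - 1 - 1)) *
      (z * (1 - v * z)) < 2 * v := by
    rcases hT.eq_or_lt with h0 | h0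
    · rw [← h0]
      simp
      linarith
    · have h1 : T * (1 / (E.card : ℝ)) * ((∑ e ∈ E, ((k e - 1 : ℕ) : ℝ) * z ^ (k e - 1 - 1)) *
          (z * (1 - v * z))) < T * (1 / (E.card : ℝ)) * ((∑ e ∈ E, ((k e : ℝ) - 1)) * (1 - v)) :=
        mul_lt_mul_of_pos_left hsum (by positivity)
      calc _ = T * (1 / (E.card : ℝ)) * ((∑ e ∈ E, ((k e - 1 : ℕ) : ℝ) * z ^ (k e - 1 - 1)) *
          (z * (1 - v * z))) := by ring
        _ < _ := h1
        _ = T * ((1 - v) * (1 / (E.card : ℝ) * ∑ e ∈ E, ((k e : ℝ) - 1))) := by ring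
        _ ≤ 2 * v := hloc
  by_contra hcon
  push Not at hcon
  have h1 := mul_le_mul_of_nonneg_right hcon hp.le
  rw [zero_mul, sub_mul, mul_assoc 2, hdd] at h1
  linarith

theorem tangent_lt {ι : Type*} {E : Finset ι} (hE : 0 < E.card) {k : ι → ℕ}
    (hk : ∀ e ∈ E, 1 ≤ k e) (hk2 : ∃ e ∈ E, 2 ≤ k e) {v T : ℝ} (hv : 0 < v) (hv1 : v < 1)
    (hT : 0 ≤ T) (hkv : ∀ e ∈ E, 2 ≤ k e → v * k e ≤ k e - 1)
    (h : ∀ z, 0 ≤ z → z ≤ 1 / v → T * psm E k z ≤ 2 * dd v z)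
    {l : ℝ} (hl : 0 < l) (hl1 : l < 1) {z : ℝ} (hz : 0 ≤ z) (hz1 : z ≤ 1 / v) (hne : z ≠ l) :
    (2 * dd v l - T * psm E k l) + (2 * dd' v l - T * (1 / (E.card : ℝ) *
      ∑ e ∈ E, (l ^ (k e - 1) - 1))) * (z - l) < 2 * dd v z - T * psm E k z := by
  have h1v : 1 < 1 / v := by rw [lt_div_iff₀ hv]; linarith
  have hloc := local_cond hE hk hv hv1 hT fun z h0 h1 => h z h0 (by linarith)
  obtain ⟨F, hF⟩ : ∃ F : ℝ → ℝ, F = fun z => 2 * dd v z - T * psm E k z := ⟨_, rfl⟩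
  obtain ⟨F', hF'⟩ : ∃ F' : ℝ → ℝ, F' = fun z => 2 * dd' v z - T * (1 / (E.card : ℝ) *
      ∑ e ∈ E, (z ^ (k e - 1) - 1)) := ⟨_, rfl⟩
  have hd : ∀ z, 0 < z → z < 1 / v → HasDerivAt F (F' z) z := by
    intro z h0 h1
    rw [hF, hF']
    refine ((hasDerivAt_dd hv hv1 h0 h1).const_mul 2).sub (HasDerivAt.const_mul T ?_)
    unfold psm
    refine HasDerivAt.const_mul _ ?_
    exact HasDerivAt.fun_sum fun e he => hasDerivAt_ps (hk e he) z
  have hd' : ∀ z, 0 < z → z < 1 / v → HasDerivAt F' (2 * dd'' v z - T * (1 / (E.card : ℝ) *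
      ∑ e ∈ E, ((k e - 1 : ℕ) : ℝ) * z ^ (k e - 1 - 1))) z := by
    intro z h0 h1
    rw [hF']
    refine ((hasDerivAt_dd' hv h0 h1).const_mul 2).sub (HasDerivAt.const_mul T ?_)
    refine HasDerivAt.const_mul _ ?_
    exact HasDerivAt.fun_sum fun e he => (hasDerivAt_pow (k e - 1) z).sub_const 1
  have hmono : StrictMonoOn F' (Set.Ioc 0 1) := by
    apply strictMonoOn_of_deriv_pos (convex_Ioc 0 1)
    · intro x hx
      exact (hd' x hx.1 (by linarith [hx.2])).continuousAt.continuousWithinAt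
    · intro x hx
      rw [interior_Ioc] at hx
      rw [(hd' x hx.1 (by linarith [hx.2])).deriv]
      exact Tg_pos hE hk hk2 hv hv1 hT hkv hloc hx.1 hx.2
  have hcont : ContinuousOn F (Set.Icc 0 1) := by
    rw [hF]
    refine ContinuousOn.sub (ContinuousOn.mul continuousOn_const
      ((continuousOn_dd hv hv1).mono (Set.Icc_subset_Icc_right h1v.le)))
      (Continuous.continuousOn ?_)
    unfold psm
    exact continuous_const.mul (continuous_const.mul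
      (continuous_finsetSum _ fun e _ => continuous_ps (k e)))
  have hconv : StrictConvexOn ℝ (Set.Icc 0 1) F := by
    apply StrictMonoOn.strictConvexOn_of_deriv (convex_Icc 0 1) hcont
    rw [interior_Icc]
    intro x hx y hy hxy
    rw [(hd x hx.1 (by linarith [hx.2])).deriv, (hd y hy.1 (by linarith [hy.2])).deriv]
    exact hmono ⟨hx.1, hx.2.le⟩ ⟨hy.1, hy.2.le⟩ hxy
  have hlm : l ∈ Set.Icc (0 : ℝ) 1 := ⟨hl.le, hl1.le⟩
  have hdl := hd l hl (by linarith)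
  have hin : ∀ y ∈ Set.Icc (0 : ℝ) 1, y ≠ l → F l + F' l * (y - l) < F y := by
    intro y hy hyl
    rcases lt_or_gt_of_ne hyl with h1 | h1
    · have h2 := hconv.slope_lt_of_hasDerivAt hy hlm h1 hdl
      rw [slope_def_field, div_lt_iff₀ (by linarith)] at h2
      linarith
    · have h2 := hconv.lt_slope_of_hasDerivAt hlm hy h1 hdl
      rw [slope_def_field, lt_div_iff₀ (by linarith)] at h2
      linarith
  have goal : F l + F' l * (z - l) < F z := by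
    rcases le_or_gt z 1 with h1 | h1
    · exact hin z ⟨hz, h1⟩ hne
    · have h2 := hin 1 ⟨zero_le_one, le_rfl⟩ hl1.ne'
      have hF1 : F 1 = 0 := by
        rw [hF]
        simp [dd_one hv hv1, psm, ps_one]
      have hF1' : F' 1 = 0 := by
        rw [hF']
        simp [dd'_one]
      have h3 : F' l < 0 := by
        rw [← hF1']
        exact hmono ⟨hl, hl1.le⟩ ⟨zero_lt_one, le_rfl⟩ hl1
      have h4 : 0 ≤ F z := by
        rw [hF]
        have := h z hz hz1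
        simp only
        linarith
      nlinarith [mul_neg_of_neg_of_pos h3 (sub_pos.2 h1)]
  rw [hF, hF'] at goal
  exact goal

end Pool.Agent.W_bbc525_b1
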