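import Pool.Agent.W_bbc525_b1.En
import Pool.Agent.W_bbc525_b1.Tg
import Pool.Agent.W_bbc525_b1.Ch
import Pool.Agent.W_bbc525_b1.Ly
import Pool.Agent.W_bbc525_b1.Pt

/-!
# The lower branch of a star forest
-/

set_option autoImplicit false

namespace Pool.Agent.W_bbc525_b1

open MeasureTheory Finset Pool.Agent.W_MP_bbc525_pr Pool.Agent.W_bbc525_h89 Pool.Agent.W_bbc525_td
  Pool.Agent.W_bbc525_ends

section one

variable (W : Graphon)

theorem dg_BF : BF (dg W) := by
  have h : BK W.W := ⟨W.measurable, 1, fun x y => by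
    rw [abs_of_nonneg (W.nonneg x y)]
    exact W.le_one x y⟩
  exact h.iter'

theorem dg_nonneg (x : unitInterval) : 0 ≤ dg W x := integral_nonneg fun y => W.nonneg x y

theorem dg_inn (x : unitInterval) : dg W x = inn W 1 x := by
  unfold dg inn
  simp only [pow_one]

theorem dg_le_one (x : unitInterval) : dg W x ≤ 1 := by
  rw [dg_inn]
  exact inn_le_one W 1 x

theorem int_dg : ∫ x, dg W x = W.mean := by
  rw [← Graphon.mom_one, mom_eq_inn]
  simp only [dg_inn]

theorem mix_one (k : ℕ) : mix W k 1 = ∫ x, dg W x ^ k := by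
  unfold mix
  simp only [dg_inn, Nat.cast_one, div_one, Real.rpow_natCast]

theorem BF.pw {g : unitInterval → ℝ} (hg : BF g) (k : ℕ) : BF (fun x => g x ^ k) := by
  obtain ⟨C, hC⟩ := hg.bdd
  refine ⟨hg.meas.pow_const k, C ^ k, fun x => ?_⟩
  rw [abs_pow]
  exact pow_le_pow_left₀ (abs_nonneg _) (hC x) k

theorem BF.relEnt' {g : unitInterval → ℝ} (hg : BF g) (h0 : ∀ x, 0 ≤ g x) (h1 : ∀ x, g x ≤ 1)
    {p : ℝ} (hp : 0 < p) (hp1 : p < 1) : BF (fun x => relEnt p (g x)) := by
  obtain ⟨C, hC⟩ := (isCompact_Icc (a := (0 : ℝ)) (b := 1)).exists_bound_of_continuousOn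
    (continuousOn_relEnt hp hp1)
  refine ⟨(measurable_relEnt p).comp hg.meas, C, fun x => ?_⟩
  have := hC (g x) ⟨h0 x, h1 x⟩
  rwa [Real.norm_eq_abs] at this

theorem BF.fsum {ι : Type*} (s : Finset ι) {f : ι → unitInterval → ℝ}
    (hf : ∀ i ∈ s, BF (f i)) : BF (fun x => ∑ i ∈ s, f i x) := by
  classical
  induction s using Finset.induction_on with
  | empty =>
    simpa using BF.const 0
  | insert i s hi ih =>
    have h1 := ih (fun j hj => hf j (Finset.mem_insert_of_mem hj))
    have h3 := (hf i (Finset.mem_insert_self i s)).add h1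
    have e : (fun x => ∑ j ∈ insert i s, f j x) = fun x => f i x + ∑ j ∈ s, f j x := by
      funext x
      rw [Finset.sum_insert hi]
    rw [e]
    exact h3

theorem BF.psm' {g : unitInterval → ℝ} (hg : BF g) {ι : Type*} (E : Finset ι) (k : ι → ℕ) :
    BF (fun x => psm E k (g x)) := by
  unfold psm ps
  apply BF.const_mul
  apply BF.fsum
  intro e _
  have h1 := BF.const_mul (1 / (k e : ℝ)) ((BF.pw hg (k e)).sub (BF.const 1))
  have h2 := h1.sub (hg.sub (BF.const 1))
  have e1 : (fun x => (g x ^ k e - 1) / (k e : ℝ) - (g x - 1)) = fun x =>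
      1 / (k e : ℝ) * (g x ^ k e - 1) - (g x - 1) := by
    funext x
    ring
  rw [e1]
  exact h2

theorem BF.iadd {f g : unitInterval → ℝ} (hf : BF f) (hg : BF g) :
    ∫ x, (f x + g x) = (∫ x, f x) + ∫ x, g x := integral_add hf.integrable hg.integrable

theorem BF.isub {f g : unitInterval → ℝ} (hf : BF f) (hg : BF g) :
    ∫ x, (f x - g x) = (∫ x, f x) - ∫ x, g x := integral_sub hf.integrable hg.integrable

theorem BF.imul (c : ℝ) (f : unitInterval → ℝ) : ∫ x, c * f x = c * ∫ x, f x :=
  integral_const_mul c f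

theorem BF.iconst (c : ℝ) : ∫ _ : unitInterval, c = c := by simp

theorem BF.int_pos' {g : unitInterval → ℝ} (hg : BF g) (h0 : ∀ x, 0 ≤ g x)
    (hne : ¬ ∀ᵐ x, g x = 0) : 0 < ∫ x, g x := by
  have h1 : 0 ≤ ∫ x, g x := integral_nonneg h0
  rcases h1.eq_or_lt with h | h
  · exfalso
    apply hne
    have h2 := (integral_eq_zero_iff_of_nonneg (μ := (volume : Measure unitInterval)) h0
      hg.integrable).1 h.symm
    filter_upwards [h2] with x hx
    simpa using hx
  · exact h

end one

section row

variable {W : Graphon} {ι : Type*} {E : Finset ι} {k : ι → ℕ}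

/-- the integrated tangent inequality -/
theorem row_lt (hE : 0 < E.card) (hk : ∀ e ∈ E, 1 ≤ k e) (hk2 : ∃ e ∈ E, 2 ≤ k e) {p v T : ℝ}
    (hp : 0 < p) (hp1 : p < 1) (hv : 0 < v) (hv1 : v < 1) (hT : 0 ≤ T)
    (hkv : ∀ e ∈ E, 2 ≤ k e → v * k e ≤ k e - 1)
    (h : ∀ z, 0 ≤ z → z ≤ 1 / v → T * psm E k z ≤ 2 * dd v z)
    (hr : 0 < W.mean) (hrv : W.mean < v) (hne : ¬ ∀ᵐ x, dg W x = W.mean) :
    T * (1 / (E.card : ℝ) * ∑ e ∈ E, (W.mean / v) ^ k e *
      (((∫ x, (dg W x / W.mean) ^ k e) - 1) / k e)) <
      2 * ((∫ x, relEnt p (dg W x)) - relEnt p W.mean) := by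
  obtain ⟨r, hr'⟩ : ∃ r, r = W.mean := ⟨_, rfl⟩
  rw [← hr'] at hr hrv hne ⊢
  obtain ⟨l, hl⟩ : ∃ l, l = r / v := ⟨_, rfl⟩
  have hl0 : 0 < l := by
    rw [hl]
    positivity
  have hl1 : l < 1 := by
    rw [hl, div_lt_one hv]
    exact hrv
  have hvl : v * l = r := by
    rw [hl]
    field_simp
  have hd := dg_BF W
  have hd0 := dg_nonneg W
  have hd1 := dg_le_one W
  have hdv : BF (fun x => dg W x / v) := by
    have := BF.const_mul (1 / v) hd
    have e : (fun x => dg W x / v) = fun x => 1 / v * dg W x := by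
      funext x
      ring
    rw [e]
    exact this
  have hz0 : ∀ x, 0 ≤ dg W x / v := fun x => div_nonneg (hd0 x) hv.le
  have hz1 : ∀ x, dg W x / v ≤ 1 / v := fun x => div_le_div_of_nonneg_right (hd1 x) hv.le
  -- the integrals
  have i1 : ∫ x, dg W x / v = l := by
    rw [integral_div, int_dg, ← hr', hl]
  obtain ⟨c, hc⟩ : ∃ c, c = 2 * dd' v l - T * (1 / (E.card : ℝ) *
      ∑ e ∈ E, (l ^ (k e - 1) - 1)) := ⟨_, rfl⟩
  obtain ⟨A, hA⟩ : ∃ A, A = 2 * dd v l - T * psm E k l := ⟨_, rfl⟩
  have hdd : ∀ x, dd v (dg W x / v) = relEnt v (dg W x) := fun x => by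
    unfold dd
    rw [mul_div_cancel₀ _ hv.ne']
  have hF : BF (fun x => 2 * relEnt v (dg W x) - T * psm E k (dg W x / v)) :=
    (BF.const_mul 2 (BF.relEnt' hd hd0 hd1 hv hv1)).sub (BF.const_mul T (BF.psm' hdv E k))
  have hG : BF (fun x => A + c * (dg W x / v - l)) :=
    (BF.const A).add (BF.const_mul c (hdv.sub (BF.const l)))
  have hpt : ∀ x, dg W x / v ≠ l → A + c * (dg W x / v - l) <
      2 * relEnt v (dg W x) - T * psm E k (dg W x / v) := by
    intro x hx
    have h1 := tangent_lt hE hk hk2 hv hv1 hT hkv h hl0 hl1 (hz0 x) (hz1 x) hx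
    rw [← hc, ← hA, hdd] at h1
    exact h1
  have hpt0 : ∀ x, 0 ≤ (2 * relEnt v (dg W x) - T * psm E k (dg W x / v)) -
      (A + c * (dg W x / v - l)) := by
    intro x
    by_cases hx : dg W x / v = l
    · rw [hx, hA, ← hdd, hx]
      simp
    · linarith [hpt x hx]
  have hpos := BF.int_pos' (hF.sub hG) hpt0 (fun hall => hne (by
    filter_upwards [hall] with x hx
    by_contra hcon
    have hx2 : dg W x / v ≠ l := by
      intro h2
      apply hcon
      rw [div_eq_iff hv.ne'] at h2
      rw [h2, mul_comm, hvl]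
    linarith [hpt x hx2]))
  have iF := hF.integrable
  have iG := hG.integrable
  rw [integral_sub iF iG] at hpos
  have i2 : ∫ x, (A + c * (dg W x / v - l)) = A := by
    rw [BF.iadd (BF.const A) (BF.const_mul c (hdv.sub (BF.const l))), BF.imul,
      BF.isub hdv (BF.const l), i1, BF.iconst, BF.iconst]
    ring
  rw [i2] at hpos
  have i3 : ∫ x, (2 * relEnt v (dg W x) - T * psm E k (dg W x / v)) =
      2 * (∫ x, relEnt v (dg W x)) - T * ∫ x, psm E k (dg W x / v) := by
    rw [BF.isub (BF.const_mul 2 (BF.relEnt' hd hd0 hd1 hv hv1))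
      (BF.const_mul T (BF.psm' hdv E k)), BF.imul, BF.imul]
  rw [i3, hA] at hpos
  have i4 : ∫ x, psm E k (dg W x / v) = psm E k l + 1 / (E.card : ℝ) * ∑ e ∈ E, l ^ k e *
      (((∫ x, (dg W x / r) ^ k e) - 1) / k e) := by
    unfold psm ps
    rw [integral_const_mul, integral_finsetSum, ← mul_add, ← Finset.sum_add_distrib]
    · congr 1
      apply Finset.sum_congr rfl
      intro e he
      have hke : (k e : ℝ) ≠ 0 := by
        have := hk e he
        exact_mod_cast (by omega : k e ≠ 0)
      have hpw := BF.pw hdv (k e)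
      have j1 : ∫ x, (((dg W x / v) ^ k e - 1) / (k e : ℝ) - (dg W x / v - 1)) =
          ((∫ x, (dg W x / v) ^ k e) - 1) / (k e : ℝ) - (l - 1) := by
        have e1 : ∀ x, ((dg W x / v) ^ k e - 1) / (k e : ℝ) - (dg W x / v - 1) =
            1 / (k e : ℝ) * ((dg W x / v) ^ k e - 1) - (dg W x / v - 1) := fun x => by ring
        simp only [e1]
        rw [BF.isub (BF.const_mul _ (hpw.sub (BF.const 1))) (hdv.sub (BF.const 1)), BF.imul,
          BF.isub hpw (BF.const 1), BF.isub hdv (BF.const 1), i1, BF.iconst]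
        ring
      rw [j1]
      have j2 : ∫ x, (dg W x / v) ^ k e = l ^ k e * ∫ x, (dg W x / r) ^ k e := by
        rw [← integral_const_mul]
        congr 1
        funext x
        rw [← mul_pow]
        congr 1
        rw [← hvl]
        field_simp
      rw [j2]
      ring
    · intro e _
      have hpw := BF.pw hdv (k e)
      exact ((hpw.integrable.sub (integrable_const _)).div_const _).sub
        (hdv.integrable.sub (integrable_const _))
  rw [i4] at hpos
  -- the relative entropies
  have i5 : (∫ x, relEnt p (dg W x)) = relEnt p v + (∫ x, relEnt v (dg W x)) +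
      (logit v - logit p) * (r - v) := by
    have e1 : ∀ x, relEnt p (dg W x) = relEnt p v + relEnt v (dg W x) +
        (logit v - logit p) * (dg W x - v) := fun x => by
      have := relEnt_shift hp hp1 hv hv1 (hd0 x) (hd1 x)
      linarith
    simp only [e1]
    rw [BF.iadd ((BF.const (relEnt p v)).add (BF.relEnt' hd hd0 hd1 hv hv1))
      (BF.const_mul _ (hd.sub (BF.const v))),
      BF.iadd (BF.const (relEnt p v)) (BF.relEnt' hd hd0 hd1 hv hv1),
      BF.imul, BF.isub hd (BF.const v), int_dg, ← hr', BF.iconst, BF.iconst]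
  have i6 := relEnt_shift hp hp1 hv hv1 hr.le (by linarith : r ≤ 1)
  have i7 : dd v l = relEnt v r := by
    unfold dd
    rw [hvl]
  rw [i7] at hpos
  rw [i5]
  rw [hl] at hpos
  linarith

end row

section graph

variable {V : Type*} [Fintype V] [DecidableEq V] {H : SimpleGraph V} [DecidableRel H.Adj]

theorem psm_eq (hE : 0 < H.edgeFinset.card) (hH : ∀ e ∈ H.edgeFinset, ndeg H e = 1) (X : ℝ) :
    psm H.edgeFinset (mdeg H) X = 2 * PsiV H X := by
  rw [PsiV_gg hE]
  unfold psm
  have e1 : ∑ e ∈ H.edgeFinset, (gg (mdeg H e) X + gg (ndeg H e) X) / 2 =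
      (1 / 2) * ∑ e ∈ H.edgeFinset, ps (mdeg H e) X := by
    rw [Finset.mul_sum]
    apply Finset.sum_congr rfl
    intro e he
    rw [hH e he]
    unfold gg ps
    simp only [pow_one, Nat.cast_one, div_one, sub_self, add_zero]
    ring
  rw [e1]
  ring

/-- **The lower branch of a star forest.** -/
theorem lower_star (hE : 0 < H.edgeFinset.card) (hH : ∀ e ∈ H.edgeFinset, ndeg H e = 1)
    {p q : ℝ} (hp : 0 < p) (hpq : p ≤ q) (hq1 : q < 1)
    (hkq : ∀ e ∈ H.edgeFinset, 2 ≤ mdeg H e → q * mdeg H e ≤ mdeg H e - 1)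
    (hN : ∀ v, p < v → v ≤ q → Ncond H p v) : UniqueMinimizer H p q := by
  have hq : 0 < q := lt_of_lt_of_le hp hpq
  have hp1 : p < 1 := by linarith
  rcases hpq.eq_or_lt with heq | hlt
  · rw [← heq]
    exact full_unique_self H hp hp1
  intro W hW hcost
  obtain ⟨hpos, hlog⟩ := feas_log hq W hW
  have hE' : (0 : ℝ) < H.edgeFinset.card := by exact_mod_cast hE
  have hd := dg_BF W
  have hd0 := dg_nonneg W
  have hmixe : ∀ e ∈ H.edgeFinset, mix W (mdeg H e) (ndeg H e) = ∫ x, dg W x ^ mdeg H e := by
    intro e he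
    rw [hH e he, mix_one]
  -- the mean
  have hmean : q ≤ W.mean := by
    by_contra hcon
    have hrq : W.mean < q := not_le.1 hcon
    obtain ⟨r, hr'⟩ : ∃ r, r = W.mean := ⟨_, rfl⟩
    rw [← hr'] at hrq
    have hr0 : 0 ≤ r := by
      rw [hr', ← int_dg]
      exact integral_nonneg hd0
    have hr : 0 < r := by
      rcases hr0.eq_or_lt with h | h
      · exfalso
        obtain ⟨e, he⟩ := Finset.card_pos.1 hE
        have h1 := hpos e he
        rw [hmixe e he] at h1
        have h2 : ∫ x, dg W x = 0 := by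
          rw [int_dg, ← hr', h]
        have h3 := (integral_eq_zero_iff_of_nonneg (μ := (volume : Measure unitInterval)) hd0
          hd.integrable).1 h2
        have h4 : ∫ x, dg W x ^ mdeg H e = 0 := by
          rw [integral_congr_ae (g := fun _ => (0 : ℝ))]
          · simp
          · filter_upwards [h3] with x hx
            have hx' : dg W x = 0 := by simpa using hx
            rw [hx', zero_pow (mdeg_pos H he).ne']
        rw [h4, zero_div] at h1
        exact lt_irrefl _ h1
      · exact h
    -- the moments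
    obtain ⟨m, hm⟩ : ∃ m : Sym2 V → ℝ, ∀ e, m e = ∫ x, (dg W x / r) ^ mdeg H e :=
      ⟨_, fun _ => rfl⟩
    have hdr : BF (fun x => dg W x / r) := by
      have := BF.const_mul (1 / r) hd
      have e : (fun x => dg W x / r) = fun x => 1 / r * dg W x := by
        funext x
        ring
      rw [e]
      exact this
    have hdr0 : ∀ x, 0 ≤ dg W x / r := fun x => div_nonneg (hd0 x) hr.le
    have hmd : ∀ e, m e = (∫ x, dg W x ^ mdeg H e) / r ^ mdeg H e := by
      intro e
      rw [hm, ← integral_div]
      simp only [div_pow]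
    have hm0 : ∀ e ∈ H.edgeFinset, 0 < m e := by
      intro e he
      have h1 := hpos e he
      rw [hmixe e he] at h1
      rw [hmd]
      have h2 : 0 < ∫ x, dg W x ^ mdeg H e := by
        have h3 : 0 < q ^ mdeg H e := by positivity
        have := mul_pos h1 h3
        rwa [div_mul_cancel₀ _ h3.ne'] at this
      positivity
    have hsum : (H.edgeFinset.card : ℝ) * Real.log (q / r) ≤
        ∑ e ∈ H.edgeFinset, Real.log (m e) / mdeg H e := by
      have e1 : ∀ e ∈ H.edgeFinset, Real.log (m e) / mdeg H e =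
          Real.log (mix W (mdeg H e) (ndeg H e) / q ^ mdeg H e) / mdeg H e +
            Real.log (q / r) := by
        intro e he
        have hk0 : (mdeg H e : ℝ) ≠ 0 := by exact_mod_cast (mdeg_pos H he).ne'
        have e2 : m e = mix W (mdeg H e) (ndeg H e) / q ^ mdeg H e * (q / r) ^ mdeg H e := by
          rw [hmd, hmixe e he, div_pow]
          field_simp
        rw [e2, Real.log_mul (hpos e he).ne' (by positivity), Real.log_pow]
        field_simp
      rw [Finset.sum_congr rfl e1, Finset.sum_add_distrib, Finset.sum_const, nsmul_eq_mul]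
      linarith
    have hlogQ : 0 < Real.log (q / r) := by
      apply Real.log_pos
      rw [lt_div_iff₀ hr]
      linarith
    have hk1 : ∀ e ∈ H.edgeFinset, 1 ≤ mdeg H e := fun e he => mdeg_pos H he
    have hk2 : ∃ e ∈ H.edgeFinset, 2 ≤ mdeg H e := by
      by_contra hcon2
      push Not at hcon2
      have h1 : ∑ e ∈ H.edgeFinset, Real.log (m e) / mdeg H e = 0 := by
        apply Finset.sum_eq_zero
        intro e he
        have h2 : mdeg H e = 1 := by
          have := hk1 e he
          have := hcon2 e he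
          omega
        have h3 : m e = 1 := by
          rw [hmd, h2]
          simp only [pow_one]
          rw [int_dg, ← hr', div_self hr.ne']
        rw [h3, Real.log_one, zero_div]
      rw [h1] at hsum
      have := mul_pos hE' hlogQ
      linarith
    have hne : ¬ ∀ᵐ x, dg W x = W.mean := by
      intro hall
      have h1 : ∑ e ∈ H.edgeFinset, Real.log (m e) / mdeg H e = 0 := by
        apply Finset.sum_eq_zero
        intro e he
        have h3 : m e = 1 := by
          rw [hm, integral_congr_ae (g := fun _ => (1 : ℝ))]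
          · simp
          · filter_upwards [hall] with x hx
            rw [hx, ← hr', div_self hr.ne', one_pow]
        rw [h3, Real.log_one, zero_div]
      rw [h1] at hsum
      have := mul_pos hE' hlogQ
      linarith
    have hmono : ∀ e ∈ H.edgeFinset, ∀ f ∈ H.edgeFinset, mdeg H e ≤ mdeg H f →
        Real.log (m e) / mdeg H e ≤ Real.log (m f) / mdeg H f := by
      intro e he f hf hef
      rw [hm, hm]
      have h1 := hm0 e he
      rw [hm] at h1
      exact (lyap hdr hdr0 (hk1 e he) hef h1).2
    -- the path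
    obtain ⟨R, hR⟩ : ∃ R, R = 2 * ((∫ x, relEnt p (dg W x)) - relEnt p W.mean) := ⟨_, rfl⟩
    obtain ⟨u, hu⟩ : ∃ u, u = max r p := ⟨_, rfl⟩
    have hru : r ≤ u := by
      rw [hu]
      exact le_max_left _ _
    have hpu : p ≤ u := by
      rw [hu]
      exact le_max_right _ _
    have huq : u < q := by
      rw [hu]
      exact max_lt hrq hlt
    have hpath : relEnt p q - relEnt p u < R := by
      apply path_lt hE hk1 hp hr hru hpu huq hq1
      intro v huv hvq
      have hv : 0 < v := by linarith
      have hv1 : v < 1 := by linarith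
      have hpv : p ≤ v := by linarith
      have hT : 0 ≤ v * (logit v - logit p) := mul_nonneg hv.le (logit_mono hp hpv hv1)
      have hψ := Ncond.psi hE hp hpv hv1 (hN v (by linarith) hvq)
      have h1 := row_lt (W := W) hE hk1 hk2 hp hp1 hv hv1 hT (fun e he h2 => by
        have h3 := hkq e he h2
        have h4 : (0 : ℝ) ≤ mdeg H e := Nat.cast_nonneg _
        have h5 := mul_le_mul_of_nonneg_right hvq h4
        linarith) (fun z hz hz1 => by
        rw [psm_eq hE hH]
        have := hψ z hz hz1
        linarith) (by rw [← hr']; exact hr) (by rw [← hr']; linarith) hne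
      rw [← hR, ← hr'] at h1
      refine lt_of_le_of_lt ?_ h1
      apply mul_le_mul_of_nonneg_left _ hT
      apply mul_le_mul_of_nonneg_left _ (by positivity)
      have h2 := cheb hE hk1 hm0 hmono (Q := q / r) (l := r / v)
        (by rw [le_div_iff₀ hr]; linarith) (by positivity)
        (by
          have e3 : r / v * (q / r) = q / v := by field_simp
          rw [e3, le_div_iff₀ hv]
          linarith) hsum
      simp only [hm] at h2
      exact h2
    have hent := ent_super hp hp1 W
    rw [← hR] at hent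
    have hur : relEnt p u ≤ relEnt p W.mean := by
      rw [← hr', hu]
      rcases le_total r p with h | h
      · rw [max_eq_right h, relEnt_self hp hp1]
        exact relEnt_nonneg hp hp1 hr.le (by linarith)
      · rw [max_eq_left h]
    linarith
  have h3 := cost_shift hp hp1 hq hq1 W
  have h4 : 0 ≤ (logit q - logit p) * (W.mean - q) :=
    mul_nonneg (logit_mono hp hpq hq1) (by linarith)
  apply full_unique_self H hq hq1 W hW
  rw [relEnt_self hq hq1]
  linarith

end graph

end Pool.Agent.W_bbc525_b1
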