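import Pool.Agent.W_bbc525_ends.SJ

/-!
# Star forests: definitions
-/

set_option autoImplicit false

namespace Pool.Agent.W_bbc525_b1

open MeasureTheory Finset Pool.Agent.W_MP_bbc525_pr Pool.Agent.W_bbc525_h89 Pool.Agent.W_bbc525_td
  Pool.Agent.W_bbc525_ends

/-- the average over `E` of the functions `ps (k e) z = (z ^ k e - 1) / k e - (z - 1)` -/
noncomputable def psm {ι : Type*} (E : Finset ι) (k : ι → ℕ) (z : ℝ) : ℝ :=
  1 / (E.card : ℝ) * ∑ e ∈ E, ps (k e) z

/-- the row means of a graphon -/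
noncomputable def dg (W : Graphon) (x : unitInterval) : ℝ := ∫ y, W.W x y

end Pool.Agent.W_bbc525_b1
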