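import Pool.Agent.W_bbc525_b1.Mi

/-!
# Superadditivity of the relative entropy for graphons

PROOF. `relEnt p x = x log x + (1 - x) log (1 - x) - x log p - (1 - x) log (1 - p)` on `[0, 1]`
(there is `relEnt_eq`-like material in W_MP_bbc525_pr; or directly: `Real.log_div`, the cases
`x = 0`, `x = 1` apart). With `d = dg W`, `r = W.mean = ∫∫ W = ∫ d` (`Graphon.mom_one`, `mom`;
`cost_eq_dd`, `BK.prod` in W_bbc525_ends/Asm.lean show how `cost` becomes an iterated integral):
`cost p W = ∫∫ W log W + ∫∫ (1-W) log (1-W) - r log p - (1-r) log (1-p)`,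
`∫ relEnt p d = ∫ d log d + ∫ (1-d) log (1-d) - r log p - (1-r) log (1-p)`,
so the linear parts cancel in the claim, which becomes the sum of `mi_nonneg` for `f = W` and for
`f = 1 - W` (row means `1 - d`, mean `1 - r`).
-/

set_option autoImplicit false

namespace Pool.Agent.W_bbc525_b1

open MeasureTheory Finset Pool.Agent.W_MP_bbc525_pr Pool.Agent.W_bbc525_h89 Pool.Agent.W_bbc525_td
  Pool.Agent.W_bbc525_ends

theorem En_rel {p x : ℝ} (hp : 0 < p) (hp1 : p < 1) (h0 : 0 ≤ x) (h1 : x ≤ 1) :
    relEnt p x = x * Real.log x + (1 - x) * Real.log (1 - x) +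
      ((Real.log (1 - p) - Real.log p) * x - Real.log (1 - p)) := by
  have e1 : ∀ t s : ℝ, 0 ≤ t → 0 < s → t * Real.log (t / s) = t * (Real.log t - Real.log s) := by
    intro t s ht hs
    rcases eq_or_lt_of_le ht with h | h
    · rw [← h]
      ring
    · rw [Real.log_div h.ne' hs.ne']
  unfold relEnt
  rw [e1 x p h0 hp, e1 (1 - x) (1 - p) (by linarith) (by linarith)]
  ring

theorem En_bdd {t : ℝ} (h0 : 0 ≤ t) (h1 : t ≤ 1) : |t * Real.log t| ≤ 1 := by
  rcases eq_or_lt_of_le h0 with h | h
  · rw [← h, zero_mul, abs_zero]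
    exact zero_le_one
  · rw [mul_comm]
    exact (Real.abs_log_mul_self_lt t h h1).le

theorem En_meas : Measurable fun t : ℝ => t * Real.log t :=
  measurable_id.mul Real.measurable_log

theorem En_bf {g : unitInterval → ℝ} (hg : BF g) (h0 : ∀ x, 0 ≤ g x) (h1 : ∀ x, g x ≤ 1) :
    BF (fun x => g x * Real.log (g x)) :=
  ⟨En_meas.comp hg.meas, 1, fun x => En_bdd (h0 x) (h1 x)⟩

theorem En_bk {f : unitInterval → unitInterval → ℝ} (hf : BK f) (h0 : ∀ x y, 0 ≤ f x y)
    (h1 : ∀ x y, f x y ≤ 1) : BK (fun x y => f x y * Real.log (f x y)) :=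
  ⟨En_meas.comp hf.meas, 1, fun x y => En_bdd (h0 x y) (h1 x y)⟩

theorem En_le {g : unitInterval → ℝ} (hg : BF g) (h1 : ∀ x, g x ≤ 1) : ∫ x, g x ≤ 1 := by
  have h := integral_mono hg.integrable (BF.const 1).integrable h1
  simpa using h

theorem ent_super {p : ℝ} (hp : 0 < p) (hp1 : p < 1) (W : Graphon) :
    2 * ((∫ x, relEnt p (dg W x)) - relEnt p W.mean) ≤ cost p W - relEnt p W.mean := by
  have hf : BK W.W := ⟨W.measurable, 1, fun x y => by
    rw [abs_of_nonneg (W.nonneg x y)]
    exact W.le_one x y⟩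
  have hf' : BK (fun x y => 1 - W.W x y) := (BK.const 1).sub hf
  have hg : BF (dg W) := hf.iter'
  have hg' : BF (fun x => 1 - dg W x) := (BF.const 1).sub hg
  have hg0 : ∀ x, 0 ≤ dg W x := fun x => integral_nonneg fun y => W.nonneg x y
  have hg1 : ∀ x, dg W x ≤ 1 := fun x => En_le (hf.row x) (W.le_one x)
  have hr : W.mean = ∫ x, dg W x := hf.prod
  have hr0 : 0 ≤ W.mean := by
    rw [hr]
    exact integral_nonneg hg0
  have hr1 : W.mean ≤ 1 := by
    rw [hr]
    exact En_le hg hg1
  have hrow : ∀ x, ∫ y, (1 - W.W x y) = 1 - dg W x := by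
    intro x
    rw [integral_sub (integrable_const 1) (hf.row x).integrable]
    simp [dg]
  have hmean : ∫ x, (1 - dg W x) = 1 - W.mean := by
    rw [integral_sub (integrable_const 1) hg.integrable, hr]
    simp
  have m1 := mi_nonneg hf W.nonneg W.symm
  have m2 := mi_nonneg hf' (fun x y => sub_nonneg.2 (W.le_one x y)) (fun x y => by rw [W.symm x y])
  have m1' : 2 * ∫ x, dg W x * Real.log (dg W x) ≤
      (∫ x, ∫ y, W.W x y * Real.log (W.W x y)) + W.mean * Real.log W.mean := by
    rw [hr]
    exact m1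
  have m2' : 2 * ∫ x, (1 - dg W x) * Real.log (1 - dg W x) ≤
      (∫ x, ∫ y, (1 - W.W x y) * Real.log (1 - W.W x y)) +
        (1 - W.mean) * Real.log (1 - W.mean) := by
    simp only [hrow, hmean] at m2
    exact m2
  -- the cost
  have b1 := En_bk hf W.nonneg W.le_one
  have b2 := En_bk hf' (fun x y => sub_nonneg.2 (W.le_one x y))
    (fun x y => by linarith [W.nonneg x y])
  have b3 : BK (fun x y => (Real.log (1 - p) - Real.log p) * W.W x y) := BK.const_mul _ hf
  have b4 : BK (fun _ _ => Real.log (1 - p)) := BK.const _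
  have hcost : cost p W = (∫ x, ∫ y, W.W x y * Real.log (W.W x y)) +
      (∫ x, ∫ y, (1 - W.W x y) * Real.log (1 - W.W x y)) +
      ((Real.log (1 - p) - Real.log p) * W.mean - Real.log (1 - p)) := by
    have h1 : cost p W = ∫ z : unitInterval × unitInterval,
        (W.W z.1 z.2 * Real.log (W.W z.1 z.2) + (1 - W.W z.1 z.2) * Real.log (1 - W.W z.1 z.2) +
          ((Real.log (1 - p) - Real.log p) * W.W z.1 z.2 - Real.log (1 - p))) := by
      unfold cost
      refine integral_congr_ae (Filter.Eventually.of_forall fun z => ?_)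
      exact En_rel hp hp1 (W.nonneg _ _) (W.le_one _ _)
    rw [h1, ((b1.add b2).add (b3.sub b4)).prod, BK.int_add (b1.add b2) (b3.sub b4),
      BK.int_add b1 b2, BK.int_sub b3 b4, BK.int_mul, hr]
    simp [dg]
  have c1 := En_bf hg hg0 hg1
  have c2 := En_bf hg' (fun x => sub_nonneg.2 (hg1 x)) (fun x => by linarith [hg0 x])
  have c3 : BF (fun x => (Real.log (1 - p) - Real.log p) * dg W x) := BF.const_mul _ hg
  have c4 : BF (fun _ => Real.log (1 - p)) := BF.const _
  have hent : ∫ x, relEnt p (dg W x) = (∫ x, dg W x * Real.log (dg W x)) +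
      (∫ x, (1 - dg W x) * Real.log (1 - dg W x)) +
      ((Real.log (1 - p) - Real.log p) * W.mean - Real.log (1 - p)) := by
    have h1 : ∫ x, relEnt p (dg W x) = ∫ x,
        (dg W x * Real.log (dg W x) + (1 - dg W x) * Real.log (1 - dg W x) +
          ((Real.log (1 - p) - Real.log p) * dg W x - Real.log (1 - p))) := by
      refine integral_congr_ae (Filter.Eventually.of_forall fun x => ?_)
      exact En_rel hp hp1 (hg0 x) (hg1 x)
    rw [h1, integral_add (c1.add c2).integrable (c3.sub c4).integrable,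
      integral_add c1.integrable c2.integrable, integral_sub c3.integrable c4.integrable,
      integral_const_mul, hr]
    simp
  rw [hcost, hent, En_rel hp hp1 hr0 hr1]
  linarith

end Pool.Agent.W_bbc525_b1
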