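import Pool.Agent.W_bbc525_b1.D0

/-!
# The local condition

PROOF. Put `z = 1 - t`, `0 < t ≤ 1`, `s = v / (1 - v)`.
(i) `dd v (1 - t) ≤ (1/2) s t^2 + v t^3`: for `0 < t < 1` (`dd_eq` in W_bbc525_td/Base.lean)
 `dd v (1 - t) = v (1 - t) log (1 - t) + (1 - v)(1 + s t) log (1 + s t)`
 (as `1 - v (1 - t) = (1 - v)(1 + s t)`), `(1 - t) log (1 - t) ≤ (1 - t)(-t - t^2/2)
 = -t + t^2/2 + t^3/2`, `(1 + y) log (1 + y) ≤ y + y^2/2` for `y ≥ 0`, and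
 `v (-t + t^2/2) + (1 - v)(s t + s^2 t^2/2) = (1/2) s t^2` because `(1 - v) s = v`,
 `v (1 + s) = s`.
(ii) `ps k (1 - t) ≥ (k - 1)/2 * t^2 - (k - 1)(k - 2)/6 * t^3` for natural `k ≥ 1` and
 `0 ≤ t ≤ 1`: i.e. `(1 - t)^k ≥ 1 - k t + k(k-1)/2 t^2 - k(k-1)(k-2)/6 t^3`, induction on `k`.
(iii) Hence for all `0 < t < 1`, after division by `t^2`:
 `T * (1/|E|) Σ ((k-1)/2 - (k-1)(k-2)/6 * t) ≤ s + 2 v t`. Let `t → 0` (if the claim were false,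
 choose `t` small): `T * (1/|E|) Σ (k - 1) ≤ 2 s`, multiply by `1 - v`.
-/

set_option autoImplicit false

namespace Pool.Agent.W_bbc525_b1

open Finset Pool.Agent.W_MP_bbc525_pr Pool.Agent.W_bbc525_td

theorem Lc_log_sub {t : ℝ} (h0 : 0 ≤ t) (h1 : t < 1) : Real.log (1 - t) ≤ -t - t ^ 2 / 2 := by
  have h := Real.hasSum_pow_div_log_of_abs_lt_one (x := t) (by rw [abs_of_nonneg h0]; exact h1)
  have h2 := sum_le_hasSum (Finset.range 2)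
    (fun n _ => div_nonneg (pow_nonneg h0 _) (by positivity)) h
  norm_num [Finset.sum_range_succ] at h2
  linarith

theorem Lc_log_add {y : ℝ} (h0 : 0 ≤ y) : (1 + y) * Real.log (1 + y) ≤ y + y ^ 2 / 2 := by
  have h1 : 0 < 1 + y := by linarith
  have h2 : 0 ≤ Real.log (1 + y) := Real.log_nonneg (by linarith)
  have h3 := Real.self_le_sinh_iff.2 h2
  rw [Real.sinh_log h1] at h3
  have h4 := mul_le_mul_of_nonneg_left h3 h1.le
  have h5 : (1 + y) * (((1 + y) - (1 + y)⁻¹) / 2) = y + y ^ 2 / 2 := by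
    have : (1 + y) * (1 + y)⁻¹ = 1 := mul_inv_cancel₀ h1.ne'
    linear_combination (-1 / 2 : ℝ) * this
  rw [h5] at h4
  exact h4

theorem Lc_dd {v : ℝ} (hv : 0 < v) (hv1 : v < 1) {t : ℝ} (h0 : 0 < t) (h1 : t < 1) :
    dd v (1 - t) ≤ 1 / 2 * (v / (1 - v)) * t ^ 2 + v / 2 * t ^ 3 := by
  have hv2 : 0 < 1 - v := by linarith
  obtain ⟨s, hs⟩ : ∃ s, s = v / (1 - v) := ⟨_, rfl⟩
  have hs0 : 0 < s := by rw [hs]; exact div_pos hv hv2
  have hs1 : (1 - v) * s = v := by rw [hs]; field_simp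
  have hX : (1 - t) < 1 / v := by
    rw [lt_div_iff₀ hv]
    nlinarith
  rw [← hs, dd_eq hv hv1 (by linarith) hX]
  have h2 : 1 - v * (1 - t) = (1 - v) * (1 + s * t) := by
    linear_combination (-t) * hs1
  have h3 : 0 < 1 + s * t := by positivity
  have h4 : Real.log (1 - v * (1 - t)) - Real.log (1 - v) = Real.log (1 + s * t) := by
    rw [h2, Real.log_mul hv2.ne' h3.ne']
    ring
  rw [h4, h2]
  have h5 : v * (1 - t) * Real.log (1 - t) ≤ v * (1 - t) * (-t - t ^ 2 / 2) :=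
    mul_le_mul_of_nonneg_left (Lc_log_sub h0.le h1) (mul_nonneg hv.le (by linarith))
  have h6 : (1 - v) * (1 + s * t) * Real.log (1 + s * t) ≤
      (1 - v) * (s * t + (s * t) ^ 2 / 2) := by
    rw [mul_assoc]
    exact mul_le_mul_of_nonneg_left (Lc_log_add (by positivity)) hv2.le
  have h7 : v * (1 - t) * (-t - t ^ 2 / 2) + (1 - v) * (s * t + (s * t) ^ 2 / 2) =
      1 / 2 * s * t ^ 2 + v / 2 * t ^ 3 := by
    linear_combination (t + s * t ^ 2 / 2 - t ^ 2 / 2) * hs1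
  linarith

theorem Lc_nat (k : ℕ) : (0 : ℝ) ≤ (k : ℝ) * ((k : ℝ) - 1) * ((k : ℝ) - 2) := by
  rcases Nat.lt_or_ge k 2 with h | h
  · interval_cases k <;> norm_num
  · have : (2 : ℝ) ≤ k := by exact_mod_cast h
    have h1 : (0 : ℝ) ≤ (k : ℝ) := by linarith
    have h2 : (0 : ℝ) ≤ (k : ℝ) - 1 := by linarith
    have h3 : (0 : ℝ) ≤ (k : ℝ) - 2 := by linarith
    positivity

theorem Lc_pow {t : ℝ} (h0 : 0 ≤ t) (h1 : t ≤ 1) (k : ℕ) :
    1 - (k : ℝ) * t + (k : ℝ) * ((k : ℝ) - 1) / 2 * t ^ 2 -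
      (k : ℝ) * ((k : ℝ) - 1) * ((k : ℝ) - 2) / 6 * t ^ 3 ≤ (1 - t) ^ k := by
  induction k with
  | zero => norm_num
  | succ k ih =>
    have h2 := mul_le_mul_of_nonneg_right ih (sub_nonneg.2 h1)
    have h3 := mul_nonneg (Lc_nat k) (pow_nonneg h0 4)
    have h4 : (1 - t) ^ (k + 1) = (1 - t) ^ k * (1 - t) := pow_succ _ _
    have h5 : 1 - ((k + 1 : ℕ) : ℝ) * t +
        ((k + 1 : ℕ) : ℝ) * (((k + 1 : ℕ) : ℝ) - 1) / 2 * t ^ 2 -
        ((k + 1 : ℕ) : ℝ) * (((k + 1 : ℕ) : ℝ) - 1) * (((k + 1 : ℕ) : ℝ) - 2) / 6 * t ^ 3 =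
        (1 - (k : ℝ) * t + (k : ℝ) * ((k : ℝ) - 1) / 2 * t ^ 2 -
          (k : ℝ) * ((k : ℝ) - 1) * ((k : ℝ) - 2) / 6 * t ^ 3) * (1 - t) -
          (k : ℝ) * ((k : ℝ) - 1) * ((k : ℝ) - 2) * t ^ 4 / 6 := by
      push_cast
      ring
    rw [h4, h5]
    linarith

theorem Lc_ps {t : ℝ} (h0 : 0 ≤ t) (h1 : t ≤ 1) {k : ℕ} (hk : 1 ≤ k) :
    ((k : ℝ) - 1) / 2 * t ^ 2 - ((k : ℝ) - 1) * ((k : ℝ) - 2) / 6 * t ^ 3 ≤ ps k (1 - t) := by
  have hk0 : (0 : ℝ) < k := by exact_mod_cast hk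
  have h2 := Lc_pow h0 h1 k
  unfold ps
  have h3 : ((k : ℝ) * (((k : ℝ) - 1) / 2 * t ^ 2 - ((k : ℝ) - 1) * ((k : ℝ) - 2) / 6 * t ^ 3 - t)) / k
      ≤ ((1 - t) ^ k - 1) / k := by
    apply div_le_div_of_nonneg_right _ hk0.le
    linarith
  rw [mul_div_cancel_left₀ _ hk0.ne'] at h3
  linarith

theorem local_cond {ι : Type*} {E : Finset ι} (hE : 0 < E.card) {k : ι → ℕ}
    (hk : ∀ e ∈ E, 1 ≤ k e) {v T : ℝ} (hv : 0 < v) (hv1 : v < 1) (hT : 0 ≤ T)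
    (h : ∀ z, 0 ≤ z → z ≤ 1 → T * psm E k z ≤ 2 * dd v z) :
    T * ((1 - v) * (1 / (E.card : ℝ) * ∑ e ∈ E, ((k e : ℝ) - 1))) ≤ 2 * v := by
  have hv2 : 0 < 1 - v := by linarith
  have hE' : (0 : ℝ) < E.card := by exact_mod_cast hE
  obtain ⟨A, hA⟩ : ∃ A, A = 1 / (E.card : ℝ) * ∑ e ∈ E, ((k e : ℝ) - 1) := ⟨_, rfl⟩
  obtain ⟨B, hB⟩ : ∃ B, B = 1 / (E.card : ℝ) * ∑ e ∈ E, ((k e : ℝ) - 1) * ((k e : ℝ) - 2) / 6 :=
    ⟨_, rfl⟩
  obtain ⟨s, hs⟩ : ∃ s, s = v / (1 - v) := ⟨_, rfl⟩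
  have hs1 : (1 - v) * s = v := by rw [hs]; field_simp
  have hpsm : ∀ t : ℝ, 0 < t → t < 1 → A / 2 * t ^ 2 - B * t ^ 3 ≤ psm E k (1 - t) := by
    intro t h0 h1
    unfold psm
    have h2 : A / 2 * t ^ 2 - B * t ^ 3 = 1 / (E.card : ℝ) * ∑ e ∈ E,
        (((k e : ℝ) - 1) / 2 * t ^ 2 - ((k e : ℝ) - 1) * ((k e : ℝ) - 2) / 6 * t ^ 3) := by
      have h3 : (∑ e ∈ E,
          (((k e : ℝ) - 1) / 2 * t ^ 2 - ((k e : ℝ) - 1) * ((k e : ℝ) - 2) / 6 * t ^ 3)) =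
          (∑ e ∈ E, ((k e : ℝ) - 1)) * (t ^ 2 / 2) -
            (∑ e ∈ E, ((k e : ℝ) - 1) * ((k e : ℝ) - 2) / 6) * t ^ 3 := by
        rw [Finset.sum_mul, Finset.sum_mul, ← Finset.sum_sub_distrib]
        exact Finset.sum_congr rfl fun e _ => by ring
      rw [h3, hA, hB]
      ring
    rw [h2]
    apply mul_le_mul_of_nonneg_left _ (by positivity)
    exact Finset.sum_le_sum fun e he => Lc_ps h0.le h1.le (hk e he)
  have hmain : ∀ t : ℝ, 0 < t → t < 1 → T * A / 2 - s ≤ (v + T * B) * t := by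
    intro t h0 h1
    have h2 := h (1 - t) (by linarith) (by linarith)
    have h3 := mul_le_mul_of_nonneg_left (hpsm t h0 h1) hT
    have h4 := Lc_dd hv hv1 h0 h1
    rw [← hs] at h4
    have h5 : (T * A / 2 - s) * t ^ 2 ≤ (v + T * B) * t * t ^ 2 := by nlinarith
    exact le_of_mul_le_mul_right h5 (by positivity)
  have hfin : T * A / 2 ≤ s := by
    by_contra hcon
    push Not at hcon
    obtain ⟨δ, hδ⟩ : ∃ δ, δ = T * A / 2 - s := ⟨_, rfl⟩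
    have hδ0 : 0 < δ := by linarith
    rw [← hδ] at hmain
    rcases le_or_gt (v + T * B) 0 with hC | hC
    · have h1 := hmain (1 / 2) (by norm_num) (by norm_num)
      linarith
    · have h1 := hmain (min (1 / 2) (δ / (2 * (v + T * B)))) (by positivity)
        (lt_of_le_of_lt (min_le_left _ _) (by norm_num))
      have h2 : (v + T * B) * min (1 / 2) (δ / (2 * (v + T * B))) ≤
          (v + T * B) * (δ / (2 * (v + T * B))) :=
        mul_le_mul_of_nonneg_left (min_le_right _ _) hC.le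
      have h3 : (v + T * B) * (δ / (2 * (v + T * B))) = δ / 2 := by field_simp
      linarith
  rw [← hA]
  have h9 := mul_le_mul_of_nonneg_left hfin hv2.le
  nlinarith

end Pool.Agent.W_bbc525_b1
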