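import Pool.Agent.W_bbc525_b1.D0

/-!
# Nonnegativity of the mutual information

`BK f` = bounded measurable kernel, `BF g` = bounded measurable function (W_bbc525_ends/Ker.lean;
`BK.iter'`, `BK.row`, `BK.left`, `BK.right`, `BK.prod`, `BK.swap`; `BK.int_add`, `BK.int_sub`,
`BK.int_mul`, `BK.int_mono` in W_bbc525_ends/SB.lean, for iterated integrals).

PROOF. `eta t = t log t`. For `ε > 0` replace `f` by `F = f + ε` (then `G x = ∫ F = g x + ε`,
`M = m + ε`, all `≥ ε`). Pointwise, with `c = G x * G y / M`:
`F log F - F log (G x) - F log (G y) + F log M = F log (F / c) ≥ F - c`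
(`Real.log_le_sub_one_of_pos` for `c / F`). Integrate: `∫∫ F log (G x) = ∫ G log G` (inner integral
over `y`), the same for `G y` by symmetry/`BK.swap`, `∫∫ c = M`, so
`∫∫ F log F - 2 ∫ G log G + M log M ≥ 0`. Let `ε → 0`: `eta` is continuous
(`Real.continuous_mul_log`), hence uniformly continuous on the compact interval `[0, C + 1]`, so
each of the three terms converges (or use `tendsto_integral_of_dominated_convergence`, or: for every
`ρ > 0` there is `ε` with `|eta (t + ε) - eta t| ≤ ρ` on `[0, C]`, so the claim holds up to `4 ρ`).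
-/

set_option autoImplicit false

namespace Pool.Agent.W_bbc525_b1

open MeasureTheory Finset Pool.Agent.W_MP_bbc525_pr Pool.Agent.W_bbc525_h89 Pool.Agent.W_bbc525_td
  Pool.Agent.W_bbc525_ends

theorem Mi_eta_BK {f : unitInterval → unitInterval → ℝ} (hf : BK f) :
    BK (fun x y => f x y * Real.log (f x y)) := by
  obtain ⟨C, hC⟩ := hf.bdd
  obtain ⟨D, hD⟩ := (isCompact_Icc (a := -C) (b := C)).exists_bound_of_continuousOn
    (f := fun t : ℝ => t * Real.log t) Real.continuous_mul_log.continuousOn
  exact hf.comp (φ := fun t => t * Real.log t) Real.continuous_mul_log.measurable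
    ⟨D, fun x y => hD _ (abs_le.1 (hC x y))⟩

theorem Mi_eta_BF {g : unitInterval → ℝ} (hg : BF g) : BF (fun x => g x * Real.log (g x)) := by
  obtain ⟨C, hC⟩ := hg.bdd
  obtain ⟨D, hD⟩ := (isCompact_Icc (a := -C) (b := C)).exists_bound_of_continuousOn
    (f := fun t : ℝ => t * Real.log t) Real.continuous_mul_log.continuousOn
  exact ⟨Real.continuous_mul_log.measurable.comp hg.meas, D, fun x => hD _ (abs_le.1 (hC x))⟩

theorem Mi_log_BF {g : unitInterval → ℝ} (hg : BF g) {e : ℝ} (he : 0 < e) (h : ∀ x, e ≤ g x) :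
    BF (fun x => Real.log (g x)) := by
  obtain ⟨C, hC⟩ := hg.bdd
  refine ⟨Real.measurable_log.comp hg.meas, |Real.log e| + |Real.log C|, fun x => ?_⟩
  have h1 : Real.log e ≤ Real.log (g x) := Real.log_le_log he (h x)
  have h2 : Real.log (g x) ≤ Real.log C :=
    Real.log_le_log (he.trans_le (h x)) ((le_abs_self _).trans (hC x))
  rw [abs_le]
  constructor
  · have := neg_abs_le (Real.log e)
    have := abs_nonneg (Real.log C)
    linarith
  · have := le_abs_self (Real.log C)
    have := abs_nonneg (Real.log e)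
    linarith

theorem Mi_pos {F : unitInterval → unitInterval → ℝ} (hF : BK F) {e : ℝ} (he : 0 < e)
    (h0 : ∀ x y, e ≤ F x y) (hs : ∀ x y, F x y = F y x) :
    2 * ∫ x, (∫ y, F x y) * Real.log (∫ y, F x y) ≤
      (∫ x, ∫ y, F x y * Real.log (F x y)) +
        (∫ x, ∫ y, F x y) * Real.log (∫ x, ∫ y, F x y) := by
  have hG : BF (fun x => ∫ y, F x y) := hF.iter'
  set G : unitInterval → ℝ := fun x => ∫ y, F x y with hGd
  have hGe : ∀ x, e ≤ G x := by
    intro x
    have h1 : ∫ _ : unitInterval, e ≤ ∫ y, F x y := by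
      refine integral_mono (integrable_const e) (hF.row x).integrable fun y => h0 x y
    simpa using h1
  set M : ℝ := ∫ x, G x with hM
  have hMe : e ≤ M := by
    have h1 : ∫ _ : unitInterval, e ≤ ∫ x, G x :=
      integral_mono (integrable_const e) hG.integrable fun x => hGe x
    simpa using h1
  have hM0 : 0 < M := he.trans_le hMe
  have hlG : BF (fun x => Real.log (G x)) := Mi_log_BF hG he hGe
  have k1 : BK (fun x y => F x y * Real.log (F x y)) := Mi_eta_BK hF
  have k2 : BK (fun x y => F x y * Real.log (G x)) := hF.mul (BK.left hlG)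
  have k3 : BK (fun x y => F x y * Real.log (G y)) := hF.mul (BK.right hlG)
  have k4 : BK (fun x y => Real.log M * F x y) := hF.const_mul _
  have k5 : BK (fun x y => G x * G y) := (BK.left hG).mul (BK.right hG)
  have k6 : BK (fun x y => 1 / M * (G x * G y)) := k5.const_mul _
  have hpt : ∀ x y, F x y - 1 / M * (G x * G y) ≤
      F x y * Real.log (F x y) - F x y * Real.log (G x) - F x y * Real.log (G y) +
        Real.log M * F x y := by
    intro x y
    have hf : 0 < F x y := he.trans_le (h0 x y)
    have hx : 0 < G x := he.trans_le (hGe x)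
    have hy : 0 < G y := he.trans_le (hGe y)
    have hc : 0 < 1 / M * (G x * G y) := by positivity
    have h1 := Real.log_le_sub_one_of_pos (div_pos hc hf)
    have h2 : Real.log (1 / M * (G x * G y) / F x y) =
        Real.log (G x) + Real.log (G y) - Real.log M - Real.log (F x y) := by
      rw [Real.log_div hc.ne' hf.ne', Real.log_mul (by positivity) (by positivity),
        Real.log_mul hx.ne' hy.ne', one_div, Real.log_inv]
      ring
    rw [h2] at h1
    have h3 := mul_le_mul_of_nonneg_left h1 hf.le
    have h4 : F x y * (1 / M * (G x * G y) / F x y - 1) = 1 / M * (G x * G y) - F x y := by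
      field_simp
    rw [h4] at h3
    nlinarith [h3]
  have hint := BK.int_mono (hF.sub k6) (((k1.sub k2).sub k3).add k4) hpt
  rw [BK.int_sub hF k6, BK.int_add ((k1.sub k2).sub k3) k4, BK.int_sub (k1.sub k2) k3,
    BK.int_sub k1 k2] at hint
  have e1 : ∫ x, ∫ y, 1 / M * (G x * G y) = M := by
    rw [BK.int_mul, BK.int_prod]
    rw [← hM]
    field_simp
  have e2 : ∫ x, ∫ y, F x y * Real.log (G x) = ∫ x, G x * Real.log (G x) := by
    refine integral_congr_ae (Filter.Eventually.of_forall fun x => ?_)
    show ∫ y, F x y * Real.log (G x) = G x * Real.log (G x)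
    rw [integral_mul_const]
  have e3 : ∫ x, ∫ y, F x y * Real.log (G y) = ∫ x, G x * Real.log (G x) := by
    have h1 := k3.swap Set.univ Set.univ
    simp only [Measure.restrict_univ] at h1
    rw [h1]
    refine integral_congr_ae (Filter.Eventually.of_forall fun y => ?_)
    show ∫ x, F x y * Real.log (G y) = G y * Real.log (G y)
    rw [integral_mul_const]
    congr 1
    exact integral_congr_ae (Filter.Eventually.of_forall fun x => hs x y)
  have e4 : ∫ x, ∫ y, Real.log M * F x y = M * Real.log M := by
    rw [BK.int_mul, mul_comm]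
  rw [e1, e2, e3, e4] at hint
  have e5 : ∫ x, ∫ y, F x y = M := rfl
  rw [e5] at hint
  show 2 * ∫ x, G x * Real.log (G x) ≤ _
  linarith

theorem mi_nonneg {f : unitInterval → unitInterval → ℝ} (hf : BK f) (h0 : ∀ x y, 0 ≤ f x y)
    (hs : ∀ x y, f x y = f y x) :
    2 * ∫ x, (∫ y, f x y) * Real.log (∫ y, f x y) ≤
      (∫ x, ∫ y, f x y * Real.log (f x y)) +
        (∫ x, ∫ y, f x y) * Real.log (∫ x, ∫ y, f x y) := by
  obtain ⟨C, hC⟩ := hf.bdd
  have hg : BF (fun x => ∫ y, f x y) := hf.iter'
  have hg0 : ∀ x, 0 ≤ ∫ y, f x y := fun x => integral_nonneg (h0 x)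
  have hgC : ∀ x, ∫ y, f x y ≤ C := by
    intro x
    have h1 : ∫ y, f x y ≤ ∫ _ : unitInterval, C :=
      integral_mono (hf.row x).integrable (integrable_const C)
        fun y => (le_abs_self _).trans (hC x y)
    simpa using h1
  have hm0 : 0 ≤ ∫ x, ∫ y, f x y := integral_nonneg hg0
  have hmC : ∫ x, ∫ y, f x y ≤ C := by
    have h1 : ∫ x, ∫ y, f x y ≤ ∫ _ : unitInterval, C :=
      integral_mono hg.integrable (integrable_const C) hgC
    simpa using h1
  have hu : UniformContinuousOn (fun t : ℝ => t * Real.log t) (Set.Icc 0 (C + 1)) :=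
    isCompact_Icc.uniformContinuousOn_of_continuous Real.continuous_mul_log.continuousOn
  refine le_of_forall_pos_le_add fun r hr => ?_
  obtain ⟨d, hd, hd'⟩ := Metric.uniformContinuousOn_iff.1 hu (r / 4) (by positivity)
  obtain ⟨e, he, hed, he1⟩ : ∃ e : ℝ, 0 < e ∧ e < d ∧ e ≤ 1 :=
    ⟨min (d / 2) 1, by positivity, (min_le_left _ _).trans_lt (by linarith), min_le_right _ _⟩
  have key : ∀ t, 0 ≤ t → t ≤ C → |(t + e) * Real.log (t + e) - t * Real.log t| ≤ r / 4 := by
    intro t ht htC
    have h1 := hd' (t + e) ⟨by linarith, by linarith⟩ t ⟨ht, by linarith⟩ (by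
      rw [Real.dist_eq, add_sub_cancel_left, abs_of_pos he]
      exact hed)
    rw [Real.dist_eq] at h1
    exact h1.le
  have hF : BK (fun x y => f x y + e) := hf.add (BK.const e)
  have hmain := Mi_pos hF he (fun x y => by linarith [h0 x y]) (fun x y => by rw [hs x y])
  have hge : ∀ x, ∫ y, (f x y + e) = (∫ y, f x y) + e := by
    intro x
    rw [integral_add (hf.row x).integrable (integrable_const e)]
    simp
  have hme : ∫ x, ((∫ y, f x y) + e) = (∫ x, ∫ y, f x y) + e := by
    rw [integral_add hg.integrable (integrable_const e)]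
    simp
  simp only [hge, hme] at hmain
  have b1 : ∫ x, ∫ y, (f x y + e) * Real.log (f x y + e) ≤
      (∫ x, ∫ y, f x y * Real.log (f x y)) + r / 4 := by
    have h1 := BK.int_mono (Mi_eta_BK hF) ((Mi_eta_BK hf).add (BK.const (r / 4))) (fun x y => by
      have := (abs_le.1 (key (f x y) (h0 x y) ((le_abs_self _).trans (hC x y)))).2
      linarith)
    rw [BK.int_add (Mi_eta_BK hf) (BK.const (r / 4))] at h1
    simpa using h1
  have b2 : ∫ x, (∫ y, f x y) * Real.log (∫ y, f x y) ≤
      (∫ x, ((∫ y, f x y) + e) * Real.log ((∫ y, f x y) + e)) + r / 4 := by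
    have hge' : BF (fun x => (∫ y, f x y) + e) := hg.add (BF.const e)
    have h1 : ∫ x, (∫ y, f x y) * Real.log (∫ y, f x y) ≤
        ∫ x, (((∫ y, f x y) + e) * Real.log ((∫ y, f x y) + e) + r / 4) :=
      integral_mono (Mi_eta_BF hg).integrable
        ((Mi_eta_BF hge').add (BF.const (r / 4))).integrable fun x => by
          have := (abs_le.1 (key (∫ y, f x y) (hg0 x) (hgC x))).1
          show (∫ y, f x y) * Real.log (∫ y, f x y) ≤
            ((∫ y, f x y) + e) * Real.log ((∫ y, f x y) + e) + r / 4
          linarith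
    rw [integral_add (Mi_eta_BF hge').integrable (integrable_const _)] at h1
    simpa using h1
  have b3 := (abs_le.1 (key (∫ x, ∫ y, f x y) hm0 hmC)).2
  linarith

end Pool.Agent.W_bbc525_b1
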